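import Pool.Agent.H6.EzB

namespace Pool.Agent.Results.MP_4c442e_co.Yes

open Multiset Pool.Agent.H6.Ez

theorem result (k d l : ℕ) (hd : 1 ≤ d) (hl : IsLeast {l | 2 ^ d ≤ l ∧ ¬ l ∣ 2 ^ k} l) :
    IsLeast {L : ℕ | ∀ S : Multiset (Fin d → ZMod (2 ^ k)), S.sum = 0 → L ≤ card S →
      ∃ T ≤ S, card T = 2 ^ k ∧ T.sum = 0} (2 ^ d * 2 ^ k - l + 1) := by
  obtain ⟨m, e⟩ : ∃ m, 2 ^ k = m + 1 := ⟨2 ^ k - 1, by have := Nat.two_pow_pos k; omega⟩
  obtain ⟨E, hE⟩ : ∃ E, E = (m • (Finset.univ : Finset (Fin d → Fin 2)).val).map (cube (m + 1)) :=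
    ⟨_, rfl⟩
  have cE : card E = 2 ^ d * m := by simp [hE, mul_comm]
  have nE : ∀ T ≤ E, card T = m + 1 → T.sum ≠ 0 := hE ▸ no_sub m
  by_cases h : d ≤ k
  · have d2 : 2 ∣ 2 ^ d := dvd_pow_self 2 (by omega)
    have k2 : 2 ∣ 2 ^ k := dvd_pow_self 2 (by omega)
    have p := Nat.two_pow_pos d
    obtain rfl : l = 2 ^ d + 1 := by
      refine le_antisymm (hl.2 ⟨Nat.le_succ _, fun q => ?_⟩) (lt_of_le_of_ne hl.1.1 fun q => ?_)
      · have := (Nat.Coprime.pow_right k (Nat.coprime_two_right.2 (Nat.odd_iff.2 (by omega)))).eq_one_of_dvd q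
        omega
      · exact hl.1.2 (q ▸ pow_dvd_pow 2 h)
    have pm : 0 < 2 ^ d * m := Nat.mul_pos p (by omega)
    have co : Nat.Coprime (2 ^ d * m - 1) (m + 1) := e ▸ Nat.Coprime.pow_right k
      (Nat.coprime_two_right.2 (Nat.odd_iff.2 (by have := d2.mul_right m; omega)))
    rw [e, mul_add, mul_one]
    refine ⟨fun S hs hc => transfer S fun S' c s => upper e hd h S' (by omega) (s hs),
      fun L hL => not_lt.1 fun q => ?_⟩
    obtain ⟨a, ha⟩ := card_pos_iff_exists_mem.1 (cE ▸ pm)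
    obtain ⟨E', rfl⟩ := exists_cons_of_mem ha
    rw [card_cons] at cE
    obtain ⟨u, hu⟩ := ((ZMod.isUnit_iff_coprime _ _).2 co).exists_right_inv
    obtain ⟨T, h1, h2, h3⟩ := hL (E'.map fun x => x + -(u • E'.sum)) (by
      rw [sum_map_add, map_const', sum_replicate, (by omega : card E' = 2 ^ d * m - 1),
        ← Nat.cast_smul_eq_nsmul (ZMod (m + 1)), smul_neg, smul_smul, hu]
      simp) (by rw [card_map]; omega)
    obtain ⟨T, h4, rfl⟩ := le_map _ T _ h1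
    rw [card_map] at h2
    rw [sum_map_add, map_const', sum_replicate, h2, ← Nat.cast_smul_eq_nsmul (ZMod (m + 1)),
      ZMod.natCast_self] at h3
    exact nE T (h4.trans (le_cons_self _ _)) h2 (by simpa using h3)
  · obtain rfl : l = 2 ^ d := le_antisymm (hl.2 ⟨le_rfl, fun q =>
      h ((Nat.pow_dvd_pow_iff_le_right (by norm_num)).1 q)⟩) hl.1.1
    have z : ((2 ^ (d - 1) : ℕ) : ZMod (m + 1)) = 0 :=
      (ZMod.natCast_eq_zero_iff _ _).2 (e ▸ pow_dvd_pow 2 (by omega))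
    rw [e, mul_add, mul_one]
    refine ⟨fun S _ hc => transfer S fun S' c _ => harb k m e S' (by omega),
      fun L hL => not_lt.1 fun q => ?_⟩
    obtain ⟨T, h1, h2, h3⟩ := hL E (funext fun i => by
      rw [hE, Multiset.map_nsmul, sum_nsmul, Pi.smul_apply, cube_total, z]; simp) (by omega)
    exact nE T h1 h2 h3

end Pool.Agent.Results.MP_4c442e_co.Yes
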